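import Pool.Agent.helper83.FI4B.Spec

set_option autoImplicit false

namespace Pool.Agent.FI4B

open Pool.Agent.helper58.DC Pool.Agent.DI Pool.Agent.GR Pool.Agent.OB Pool.Agent.DR Pool.Agent.FI Pool.Agent.FI3 Pool.Agent.FI4

theorem BOR_geom (w : ℂ) (N : ℕ) (h : w ^ N = 1) :
    ∑ s ∈ Finset.range N, w ^ s = if w = 1 then (N : ℂ) else 0 := by
  split_ifs with hw
  · subst hw
    simp
  · have h1 := geom_sum_mul w N
    rw [h, sub_self] at h1
    exact (mul_eq_zero.1 h1).resolve_right (sub_ne_zero.2 hw)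

theorem BOR_T (p j : ℕ) (w : ℂ) (hp : p.Prime) (hw : w ^ p ^ (j + 1) = 1) :
    ∑ s ∈ (Finset.range (p ^ (j + 1))).filter (fun s => ¬ p ∣ s), w ^ s =
      (if w = 1 then ((p ^ (j + 1) : ℕ) : ℂ) else 0) - (if w ^ p = 1 then ((p ^ j : ℕ) : ℂ) else 0) := by
  have ha := BOR_geom w _ hw
  have hb := BOR_geom (w ^ p) (p ^ j) (by rw [← pow_mul, ← hw, pow_succ, mul_comm])
  have h1 := Finset.sum_filter_add_sum_filter_not (Finset.range (p ^ (j + 1))) (fun s => p ∣ s) (fun s => w ^ s)
  have h2 : ∑ s ∈ (Finset.range (p ^ (j + 1))).filter (fun s => p ∣ s), w ^ s = ∑ i ∈ Finset.range (p ^ j), (w ^ p) ^ i := by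
    symm
    apply Finset.sum_bij (fun i _ => p * i)
    · intro i hi
      rw [Finset.mem_range] at hi
      rw [Finset.mem_filter, Finset.mem_range]
      refine ⟨?_, dvd_mul_right _ _⟩
      rw [pow_succ, mul_comm]
      exact Nat.mul_lt_mul_of_pos_right hi hp.pos
    · intro i _ i' _ h
      exact Nat.eq_of_mul_eq_mul_left hp.pos h
    · intro s hs
      rw [Finset.mem_filter, Finset.mem_range] at hs
      obtain ⟨i, rfl⟩ := hs.2
      refine ⟨i, ?_, rfl⟩
      rw [Finset.mem_range]
      have h3 := hs.1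
      rw [pow_succ, mul_comm (p ^ j)] at h3
      exact Nat.lt_of_mul_lt_mul_left h3
    · intro i _
      rw [← pow_mul]
  rw [h2, hb, ha] at h1
  linear_combination h1

theorem BOR_lv_pow {D : Type} [CommGroup D] (l : D →* ℂˣ) (s : ℕ) (u : D) : lv (l ^ s) u = lv l u ^ s := by
  simp [lv]

theorem BOR_index (p : ℕ) (hp : p.Prime) (D : Type) [CommGroup D] [Finite D] (l : D →* ℂˣ) (hl : orderOf l = p) :
    l.ker.index = p := by
  have : NeZero p := ⟨hp.ne_zero⟩
  have h1 : l.range ≤ rootsOfUnity p ℂ := by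
    rintro _ ⟨u, rfl⟩
    rw [mem_rootsOfUnity]
    have h2 : (l ^ p) u = 1 := by
      rw [← hl, pow_orderOf_eq_one]
      rfl
    exact h2
  have h3 : Nat.card l.range ∣ p := by
    have h4 := Subgroup.card_dvd_of_le h1
    have h5 : Nat.card (rootsOfUnity p ℂ) = p := Complex.card_rootsOfUnity p
    rw [h5] at h4
    exact h4
  rw [Subgroup.index_ker]
  rcases (Nat.dvd_prime hp).1 h3 with h6 | h6
  · exfalso
    have h7 : l.range = ⊥ := Subgroup.card_eq_one.1 h6
    have h8 : l = 1 := by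
      rw [MonoidHom.range_eq_bot_iff] at h7
      exact h7
    rw [h8, orderOf_one] at hl
    exact hp.one_lt.ne hl
  · exact h6

open Classical in
/-- a generator of the cyclic group `L` -/
noncomputable def BOR_g {Λ : Type} [Group Λ] (L : Subgroup Λ) : Λ :=
  if h : ∃ l, Subgroup.zpowers l = L then h.choose else 1

theorem BOR_g_spec {Λ : Type} [Group Λ] (l : Λ) :
    Subgroup.zpowers (BOR_g (Subgroup.zpowers l)) = Subgroup.zpowers l := by
  have h : ∃ l', Subgroup.zpowers l' = Subgroup.zpowers l := ⟨l, rfl⟩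
  unfold BOR_g
  rw [dif_pos h]
  exact h.choose_spec

theorem BOR_fiber {Λ : Type} [CommGroup Λ] [Fintype Λ] (l₀ : Λ) (F : Λ → ℂ)
    [DecidablePred fun l : Λ => BOR_g (Subgroup.zpowers l) = l₀]
    (h0 : ∃ l, BOR_g (Subgroup.zpowers l) = l₀) :
    ∑ l ∈ Finset.univ.filter (fun l : Λ => BOR_g (Subgroup.zpowers l) = l₀), F l =
      ∑ s ∈ (Finset.range (orderOf l₀)).filter (fun s => s.Coprime (orderOf l₀)), F (l₀ ^ s) := by
  have hpos : 0 < orderOf l₀ := orderOf_pos l₀
  have key : ∀ l : Λ, BOR_g (Subgroup.zpowers l) = l₀ ↔ Subgroup.zpowers l = Subgroup.zpowers l₀ := by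
    obtain ⟨l₁, h1⟩ := h0
    have h2 : Subgroup.zpowers l₀ = Subgroup.zpowers l₁ := by rw [← h1, BOR_g_spec]
    intro l
    constructor
    · intro h
      rw [← BOR_g_spec l, h]
    · intro h
      rw [h, h2, h1]
  symm
  apply Finset.sum_bij (fun s _ => l₀ ^ s)
  · intro s hs
    rw [Finset.mem_filter, Finset.mem_range] at hs
    rw [Finset.mem_filter]
    refine ⟨Finset.mem_univ _, ?_⟩
    rw [key]
    apply Subgroup.eq_of_le_of_card_ge
    · rw [Subgroup.zpowers_le]
      exact Subgroup.pow_mem _ (Subgroup.mem_zpowers l₀) s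
    · rw [Nat.card_zpowers, Nat.card_zpowers, Nat.Coprime.orderOf_pow hs.2.symm]
  · intro s hs s' hs' h
    rw [Finset.mem_filter, Finset.mem_range] at hs hs'
    exact pow_injOn_Iio_orderOf hs.1 hs'.1 h
  · intro l hl
    classical
    rw [Finset.mem_filter, key] at hl
    have h3 : l ∈ Subgroup.zpowers l₀ := by
      rw [← hl.2]
      exact Subgroup.mem_zpowers l
    rw [mem_zpowers_iff_mem_range_orderOf] at h3
    rw [Finset.mem_image] at h3
    obtain ⟨s, hs, hsl⟩ := h3
    rw [Finset.mem_range] at hs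
    refine ⟨s, ?_, hsl⟩
    rw [Finset.mem_filter, Finset.mem_range]
    refine ⟨hs, ?_⟩
    have h4 : orderOf l = orderOf l₀ := by
      rw [← Nat.card_zpowers, ← Nat.card_zpowers, hl.2]
    rw [← hsl, orderOf_pow] at h4
    have h5 : Nat.gcd (orderOf l₀) s = 1 := by
      have h6 := Nat.gcd_dvd_left (orderOf l₀) s
      have h7 : Nat.gcd (orderOf l₀) s ≠ 0 := Nat.gcd_ne_zero_left hpos.ne'
      obtain ⟨q, hq⟩ := h6
      have h8 : orderOf l₀ / Nat.gcd (orderOf l₀) s = q := by
        nth_rewrite 1 [hq]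
        exact Nat.mul_div_cancel_left q (Nat.pos_of_ne_zero h7)
      rw [h8] at h4
      rw [← h4] at hq
      have hqpos : 0 < q := by rw [h4]; exact hpos
      have h9 : (orderOf l₀).gcd s * q = 1 * q := by rw [one_mul, h4]; rw [h4] at hq; exact hq.symm
      exact Nat.eq_of_mul_eq_mul_right hqpos h9
    exact (Nat.coprime_comm.1 h5)
  · intro s _
    rfl

/-- the integer value of the inner sum -/
theorem BOR_val (p k : ℕ) (hp : p.Prime) (D : Type) [CommGroup D] [Finite D] (hk : Nat.card D = p ^ k)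
    (l : D →* ℂˣ) (u : D) :
    ∃ z : ℤ, ∑ s ∈ (Finset.range (orderOf l)).filter (fun s => s.Coprime (orderOf l)), lv (l ^ s) u = (z : ℂ) ∧
      (orderOf l = 1 → z = 1) ∧
      (orderOf l = p → (u ∈ l.ker → z = -1 + p) ∧ (u ∉ l.ker → z = -1)) ∧
      (orderOf l = p ^ 2 → (u ∈ (l ^ p).ker → (p : ℤ) ^ 2 ∣ z + p) ∧ (u ∉ (l ^ p).ker → (p : ℤ) ^ 2 ∣ z)) ∧
      (orderOf l ≠ 1 → orderOf l ≠ p → orderOf l ≠ p ^ 2 → (p : ℤ) ^ 2 ∣ z) := by
  have hfin : Finite (D →* ℂˣ) := inferInstance
  have h1 : orderOf l ∣ p ^ k := by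
    rw [← hk, ← card_lch]
    exact orderOf_dvd_natCard l
  obtain ⟨j, -, hj⟩ := (Nat.dvd_prime_pow hp).1 h1
  rcases j with _ | j
  · rw [pow_zero] at hj
    refine ⟨1, ?_, fun _ => rfl, ?_, ?_, ?_⟩
    · rw [hj]
      have h2 : (Finset.range 1).filter (fun s => s.Coprime 1) = {0} := by decide
      rw [Finset.sum_filter]
      rw [Finset.sum_range_one]
      rw [if_pos (Nat.coprime_one_right 0), BOR_lv_pow, pow_zero]
      simp
    · intro h
      exact absurd (hj.symm.trans h) hp.one_lt.ne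
    · intro h
      rw [hj] at h
      exact absurd h (Nat.one_lt_pow two_ne_zero hp.one_lt).ne
    · intro h
      exact absurd hj h
  · have hw : lv l u ^ p ^ (j + 1) = 1 := by
      rw [← hj, ← BOR_lv_pow, pow_orderOf_eq_one, lv_hone]
    have h2 := BOR_T p j (lv l u) hp hw
    have h3 : ∑ s ∈ (Finset.range (orderOf l)).filter (fun s => s.Coprime (orderOf l)), lv (l ^ s) u =
        ∑ s ∈ (Finset.range (p ^ (j + 1))).filter (fun s => ¬ p ∣ s), lv l u ^ s := by
      apply Finset.sum_congr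
      · rw [hj]
        apply Finset.filter_congr
        intro s _
        rw [Nat.coprime_pow_right_iff (Nat.succ_pos j), Nat.coprime_comm, hp.coprime_iff_not_dvd]
      · intro s _
        exact BOR_lv_pow l s u
    have m1 : lv l u = 1 ↔ u ∈ l.ker := by
      rw [MonoidHom.mem_ker]
      constructor
      · intro h
        exact Units.ext h
      · intro h
        unfold lv
        rw [h]
        rfl
    have m2 : lv l u ^ p = 1 ↔ u ∈ (l ^ p).ker := by
      rw [MonoidHom.mem_ker, ← BOR_lv_pow]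
      constructor
      · intro h
        exact Units.ext h
      · intro h
        unfold lv
        rw [h]
        rfl
    rw [h3, h2]
    by_cases c1 : lv l u = 1
    · have c2 : lv l u ^ p = 1 := by rw [c1, one_pow]
      rw [if_pos c1, if_pos c2]
      refine ⟨(p : ℤ) ^ (j + 1) - (p : ℤ) ^ j, by push_cast; ring, ?_, ?_, ?_, ?_⟩
      · intro h
        rw [h] at hj
        exact absurd hj (Nat.one_lt_pow (Nat.succ_ne_zero j) hp.one_lt).ne
      · intro h
        rw [h] at hj
        have hj0 : j = 0 := by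
          have h5 : p ^ 1 = p ^ (j + 1) := by rw [pow_one]; exact hj
          have h6 := Nat.pow_right_injective hp.two_le h5
          omega
        subst hj0
        refine ⟨fun _ => by ring, fun h5 => absurd (m1.1 c1) h5⟩
      · intro h
        rw [h] at hj
        have hj1 : j = 1 := by
          have h6 := Nat.pow_right_injective hp.two_le hj
          omega
        subst hj1
        refine ⟨fun _ => ⟨1, by ring⟩, fun h5 => absurd (m2.1 c2) h5⟩
      · intro n1 n2 n3
        have h0 : j ≠ 0 := by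
          intro h
          subst h
          apply n2
          rw [hj]
          exact pow_one p
        have h1 : j ≠ 1 := by
          intro h
          subst h
          exact n3 hj
        obtain ⟨i, rfl⟩ : ∃ i, j = i + 2 := ⟨j - 2, by omega⟩
        exact ⟨(p : ℤ) ^ (i + 1) - (p : ℤ) ^ i, by ring⟩
    · rw [if_neg c1]
      by_cases c2 : lv l u ^ p = 1
      · rw [if_pos c2]
        refine ⟨- (p : ℤ) ^ j, by push_cast; ring, ?_, ?_, ?_, ?_⟩
        · intro h
          rw [h] at hj
          exact absurd hj (Nat.one_lt_pow (Nat.succ_ne_zero j) hp.one_lt).ne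
        · intro h
          rw [h] at hj
          have hj0 : j = 0 := by
            have h5 : p ^ 1 = p ^ (j + 1) := by rw [pow_one]; exact hj
            have h6 := Nat.pow_right_injective hp.two_le h5
            omega
          subst hj0
          refine ⟨fun h5 => absurd (m1.2 h5) c1, fun _ => by ring⟩
        · intro h
          rw [h] at hj
          have hj1 : j = 1 := by
            have h6 := Nat.pow_right_injective hp.two_le hj
            omega
          subst hj1
          refine ⟨fun _ => ⟨0, by ring⟩, fun h5 => absurd (m2.1 c2) h5⟩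
        · intro n1 n2 n3
          have h0 : j ≠ 0 := by
            intro h
            subst h
            apply n2
            rw [hj]
            exact pow_one p
          have h1 : j ≠ 1 := by
            intro h
            subst h
            exact n3 hj
          obtain ⟨i, rfl⟩ : ∃ i, j = i + 2 := ⟨j - 2, by omega⟩
          exact ⟨- (p : ℤ) ^ i, by ring⟩
      · rw [if_neg c2]
        refine ⟨0, by simp, ?_, ?_, ?_, ?_⟩
        · intro h
          rw [h] at hj
          exact absurd hj (Nat.one_lt_pow (Nat.succ_ne_zero j) hp.one_lt).ne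
        · intro h
          rw [h] at hj
          have hj0 : j = 0 := by
            have h5 : p ^ 1 = p ^ (j + 1) := by rw [pow_one]; exact hj
            have h6 := Nat.pow_right_injective hp.two_le h5
            omega
          subst hj0
          rw [zero_add, pow_one] at hw
          exact absurd hw c2
        · intro h
          exact ⟨fun h5 => absurd (m2.2 h5) c2, fun _ => dvd_zero _⟩
        · intro _ _ _
          exact dvd_zero _

/-- the coefficients are invariant -/
theorem BOR_coef (p k : ℕ) (hp : p.Prime) (D : Type) [CommGroup D] [Fintype D] (hk : Nat.card D = p ^ k)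
    [Fintype (D →* ℂˣ)] (f : D → ℂ) (m : (D →* ℂˣ) → ℤ) (hf : ∀ u, f u = ∑ l : D →* ℂˣ, (m l : ℂ) * lv l u)
    (hi : ∀ s : ℕ, ¬ p ∣ s → ∀ u, f (u ^ s) = f u) (l : D →* ℂˣ) (s : ℕ) (hs : ¬ p ∣ s) : m (l ^ s) = m l := by
  classical
  have h1 : ∀ l' : D →* ℂˣ, ∑ u, f u * lv l' u⁻¹ = (Nat.card D : ℂ) * m l' := by
    intro l'
    calc ∑ u, f u * lv l' u⁻¹ = ∑ u, ∑ l : D →* ℂˣ, (m l : ℂ) * (lv l u * lv l' u⁻¹) := by
          apply Finset.sum_congr rfl
          intro u _
          rw [hf u, Finset.sum_mul]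
          apply Finset.sum_congr rfl
          intro l _
          ring
      _ = ∑ l : D →* ℂˣ, (m l : ℂ) * ∑ u, (lv l u * lv l' u⁻¹) := by
          rw [Finset.sum_comm]
          apply Finset.sum_congr rfl
          intro l _
          rw [Finset.mul_sum]
      _ = ∑ l : D →* ℂˣ, (m l : ℂ) * (if l = l' then (Nat.card D : ℂ) else 0) := by
          apply Finset.sum_congr rfl
          intro l _
          rw [sum_lv_lv]
      _ = (Nat.card D : ℂ) * m l' := by
          rw [Finset.sum_eq_single l']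
          · rw [if_pos rfl]
            ring
          · intro b _ hb
            rw [if_neg hb, mul_zero]
          · intro h
            exact absurd (Finset.mem_univ _) h
  have hc : (Nat.card D).Coprime s := by
    rw [hk]
    exact Nat.Coprime.pow_left k ((Nat.Prime.coprime_iff_not_dvd hp).2 hs)
  have h2 : ∑ u, f u * lv (l ^ s) u⁻¹ = ∑ u, f u * lv l u⁻¹ := by
    rw [← Equiv.sum_comp (powCoprime hc) (fun v => f v * lv l v⁻¹)]
    apply Finset.sum_congr rfl
    intro u _
    change f u * lv (l ^ s) u⁻¹ = f (u ^ s) * lv l (u ^ s)⁻¹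
    rw [hi s hs, BOR_lv_pow, ← inv_pow, lv_pow]
  rw [h1, h1] at h2
  have h3 : (Nat.card D : ℂ) ≠ 0 := by
    rw [hk]
    push_cast
    exact pow_ne_zero _ (Nat.cast_ne_zero.2 hp.ne_zero)
  have h4 := mul_left_cancel₀ h3 h2
  exact_mod_cast h4

open Classical in
/-- the contribution of `l` to `b V` -/
noncomputable def BOR_b {D : Type} [CommGroup D] (p : ℕ) (l : D →* ℂˣ) (V : Subgroup D) : ℤ :=
  (if orderOf l = p ∧ l.ker = V then 1 else 0) + (if orderOf l = p ^ 2 ∧ (l ^ p).ker = V then -1 else 0)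

open Classical in
theorem BOR_sum_b (p : ℕ) (hp : p.Prime) (D : Type) [CommGroup D] [Finite D] (l : D →* ℂˣ) (u : D)
    (S : Finset (Subgroup D)) (hS : ∀ V, V ∈ S ↔ V.index = p ∧ u ∈ V) :
    ∑ V ∈ S, BOR_b p l V = (if orderOf l = p ∧ u ∈ l.ker then 1 else 0) +
      (if orderOf l = p ^ 2 ∧ u ∈ (l ^ p).ker then -1 else 0) := by
  unfold BOR_b
  rw [Finset.sum_add_distrib]
  congr 1
  · by_cases h : orderOf l = p
    · have h1 : l.ker ∈ S ↔ u ∈ l.ker := by
        rw [hS]
        exact ⟨fun h => h.2, fun h2 => ⟨BOR_index p hp D l h, h2⟩⟩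
      simp only [h, true_and]
      rw [Finset.sum_ite_eq]
      simp only [h1]
    · simp [h]
  · by_cases h : orderOf l = p ^ 2
    · have h0 : orderOf (l ^ p) = p := by
        rw [orderOf_pow' l hp.ne_zero, h, Nat.gcd_eq_right (dvd_pow_self p two_ne_zero), pow_two, Nat.mul_div_cancel_left p hp.pos]
      have h1 : (l ^ p).ker ∈ S ↔ u ∈ (l ^ p).ker := by
        rw [hS]
        exact ⟨fun h => h.2, fun h2 => ⟨BOR_index p hp D (l ^ p) h0, h2⟩⟩
      simp only [h, true_and]
      rw [Finset.sum_ite_eq]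
      simp only [h1]
    · simp [h]

theorem BOR : BOR_stmt := by
  classical
  intro p hp D _ _ hD f hf hi
  have : Fact p.Prime := ⟨hp⟩
  obtain ⟨k, hk⟩ := hD.exists_card_eq
  have hfin : Finite (D →* ℂˣ) := inferInstance
  have : Fintype (D →* ℂˣ) := Fintype.ofFinite _
  obtain ⟨m, hm⟩ := hf
  have hm' : ∀ u, f u = ∑ l : D →* ℂˣ, (m l : ℂ) * lv l u := by
    intro u
    rw [hm u, finsum_eq_sum_of_fintype]
  have hinv := BOR_coef p k hp D hk f m hm' hi
  set r : (D →* ℂˣ) → (D →* ℂˣ) := fun l => BOR_g (Subgroup.zpowers l) with hr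
  set R : Finset (D →* ℂˣ) := Finset.univ.image r with hR
  have hsum : ∀ u, f u = ∑ l₀ ∈ R, (m l₀ : ℂ) *
      ∑ s ∈ (Finset.range (orderOf l₀)).filter (fun s => s.Coprime (orderOf l₀)), lv (l₀ ^ s) u := by
    intro u
    rw [hm' u, ← Finset.sum_fiberwise_of_maps_to (g := r) (t := R) (fun l _ => Finset.mem_image_of_mem r (Finset.mem_univ l))]
    apply Finset.sum_congr rfl
    intro l₀ hl₀
    rw [hR, Finset.mem_image] at hl₀
    obtain ⟨l₁, -, hl₁⟩ := hl₀
    refine (BOR_fiber l₀ (fun l => (m l : ℂ) * lv l u) ⟨l₁, hl₁⟩).trans ?_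
    rw [Finset.mul_sum]
    apply Finset.sum_congr rfl
    intro s hs
    rw [Finset.mem_filter, Finset.mem_range] at hs
    change (m (l₀ ^ s) : ℂ) * lv (l₀ ^ s) u = (m l₀ : ℂ) * lv (l₀ ^ s) u
    have h2 : orderOf l₀ ∣ p ^ k := by
      rw [← hk, ← card_lch]
      exact orderOf_dvd_natCard l₀
    obtain ⟨j, -, hj⟩ := (Nat.dvd_prime_pow hp).1 h2
    rcases j with _ | j
    · rw [pow_zero, orderOf_eq_one_iff] at hj
      rw [hj, one_pow]
    · rw [hj] at hs
      have h3 : ¬ p ∣ s := by
        rw [← hp.coprime_iff_not_dvd, Nat.coprime_comm, ← Nat.coprime_pow_right_iff (Nat.succ_pos j)]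
        exact hs.2
      rw [hinv l₀ s h3]
  have hz : ∀ l₀ : D →* ℂˣ, ∀ u, _ := fun l₀ u => BOR_val p k hp D hk l₀ u
  choose z z0 z1 z2 z3 z4 using hz
  refine ⟨∑ l₀ ∈ R, m l₀ * (if orderOf l₀ = 1 then 1 else if orderOf l₀ = p then -1 else 0),
    fun V => ∑ l₀ ∈ R, m l₀ * BOR_b p l₀ V, ?_⟩
  intro u
  refine ⟨∑ l₀ ∈ R, m l₀ * z l₀ u, ?_, ?_⟩
  · rw [hsum u]
    push_cast
    apply Finset.sum_congr rfl
    intro l₀ _
    rw [z0 l₀ u]
  · have : Fintype (Subgroup D) := Fintype.ofFinite _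
    have h1 : ∑ᶠ V ∈ {V : Subgroup D | V.index = p ∧ u ∈ V}, ∑ l₀ ∈ R, m l₀ * BOR_b p l₀ V =
        ∑ l₀ ∈ R, m l₀ * ((if orderOf l₀ = p ∧ u ∈ l₀.ker then 1 else 0) +
          (if orderOf l₀ = p ^ 2 ∧ u ∈ (l₀ ^ p).ker then -1 else 0)) := by
      rw [finsum_mem_eq_toFinset_sum, Finset.sum_comm]
      apply Finset.sum_congr rfl
      intro l₀ _
      rw [← Finset.mul_sum, BOR_sum_b p hp D l₀ u]
      intro V
      rw [Set.mem_toFinset]
      rfl
    rw [h1, Finset.mul_sum, ← Finset.sum_add_distrib, ← Finset.sum_sub_distrib]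
    apply Finset.dvd_sum
    intro l₀ _
    have h2 : m l₀ * z l₀ u - (m l₀ * (if orderOf l₀ = 1 then 1 else if orderOf l₀ = p then -1 else 0) +
        p * (m l₀ * ((if orderOf l₀ = p ∧ u ∈ l₀.ker then 1 else 0) +
          (if orderOf l₀ = p ^ 2 ∧ u ∈ (l₀ ^ p).ker then -1 else 0)))) =
        m l₀ * (z l₀ u - ((if orderOf l₀ = 1 then 1 else if orderOf l₀ = p then -1 else 0) +
        p * ((if orderOf l₀ = p ∧ u ∈ l₀.ker then 1 else 0) +
          (if orderOf l₀ = p ^ 2 ∧ u ∈ (l₀ ^ p).ker then -1 else 0)))) := by ring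
    rw [h2]
    apply Dvd.dvd.mul_left
    have p1 : p ≠ 1 := hp.one_lt.ne'
    have p2 : p ≠ p ^ 2 := by
      intro h
      have h5 : p ^ 1 = p ^ 2 := by rw [pow_one]; exact h
      have h6 := Nat.pow_right_injective hp.two_le h5
      omega
    have p3 : p ^ 2 ≠ 1 := (Nat.one_lt_pow two_ne_zero hp.one_lt).ne'
    by_cases e1 : orderOf l₀ = 1
    · rw [z1 l₀ u e1, if_pos e1, if_neg (fun h => p1 (h.1.symm.trans e1)),
        show (if orderOf l₀ = p ^ 2 ∧ u ∈ (l₀ ^ p).ker then (-1 : ℤ) else 0) = 0 from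
          if_neg (fun h => p3 (h.1.symm.trans e1))]
      exact ⟨0, by ring⟩
    · rw [if_neg e1]
      by_cases e2 : orderOf l₀ = p
      · rw [if_pos e2]
        rw [show (if orderOf l₀ = p ^ 2 ∧ u ∈ (l₀ ^ p).ker then (-1 : ℤ) else 0) = 0 from
          if_neg (fun h => p2 (e2.symm.trans h.1))]
        by_cases e3 : u ∈ l₀.ker
        · rw [if_pos ⟨e2, e3⟩, (z2 l₀ u e2).1 e3]
          exact ⟨0, by ring⟩
        · rw [if_neg (fun h => e3 h.2), (z2 l₀ u e2).2 e3]
          exact ⟨0, by ring⟩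
      · rw [if_neg e2, if_neg (fun h => e2 h.1)]
        by_cases e4 : orderOf l₀ = p ^ 2
        · by_cases e3 : u ∈ (l₀ ^ p).ker
          · rw [if_pos ⟨e4, e3⟩]
            have h5 := (z3 l₀ u e4).1 e3
            have h6 : z l₀ u - (0 + (p : ℤ) * (0 + -1)) = z l₀ u + p := by ring
            rw [h6]
            exact h5
          · rw [if_neg (fun h => e3 h.2)]
            have h5 := (z3 l₀ u e4).2 e3
            have h6 : z l₀ u - (0 + (p : ℤ) * (0 + 0)) = z l₀ u := by ring
            rw [h6]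
            exact h5
        · rw [if_neg (fun h => e4 h.1)]
          have h5 := z4 l₀ u e1 e2 e4
          have h6 : z l₀ u - (0 + (p : ℤ) * (0 + 0)) = z l₀ u := by ring
          rw [h6]
          exact h5

end Pool.Agent.FI4B
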